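import Pool.Agent.Q106.PK.Stm

/-!
# Project PK (helper106), job LEXA: the unique translate in lexicographic normal form
-/

set_option autoImplicit false

namespace Pool.Agent.Q106.PK

private theorem lexa_cell {P : Finset (ℤ × ℤ)} {v : ℤ × ℤ} (h : LexA (tr v P)) :
    ((-v.1, -v.2) : ℤ × ℤ) ∈ P := by
  have h0 := h.1
  rw [mem_tr] at h0
  have e : ((0, 0) : ℤ × ℤ) - v = (-v.1, -v.2) := by
    ext <;> simp
  rwa [e] at h0

private theorem lexa_le {P : Finset (ℤ × ℤ)} {v w : ℤ × ℤ} (hv : LexA (tr v P)) (hw : LexA (tr w P)) :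
    0 < w.1 - v.1 ∨ (w.1 - v.1 = 0 ∧ 0 ≤ w.2 - v.2) := by
  have h1 := lexa_cell hv
  have h2 : ((w.1 - v.1, w.2 - v.2) : ℤ × ℤ) ∈ tr w P := by
    rw [mem_tr]
    have e : ((w.1 - v.1, w.2 - v.2) : ℤ × ℤ) - w = (-v.1, -v.2) := by
      ext <;> simp
    rw [e]
    exact h1
  exact hw.2 _ h2

/-- every nonempty finite set has exactly one translate in normal form 1 -/
theorem t_LEXA : S_LEXA := by
  intro P hP
  obtain ⟨a, haP, ha⟩ := Finset.exists_min_image P Prod.fst hP
  have hne : (P.filter fun p => p.1 = a.1).Nonempty := ⟨a, by simp [haP]⟩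
  obtain ⟨b, hb, hmin⟩ := Finset.exists_min_image (P.filter fun p => p.1 = a.1) Prod.snd hne
  rw [Finset.mem_filter] at hb
  refine ⟨(-b.1, -b.2), ⟨?_, ?_⟩, ?_⟩
  · rw [mem_tr]
    have e : ((0, 0) : ℤ × ℤ) - (-b.1, -b.2) = b := by
      ext <;> simp
    rw [e]
    exact hb.1
  · intro p hp
    rw [mem_tr] at hp
    have e : p - (-b.1, -b.2) = (p.1 + b.1, p.2 + b.2) := by
      ext <;> simp
    rw [e] at hp
    have h1 := ha _ hp
    simp only at h1
    rcases lt_or_eq_of_le h1 with h | h
    · left
      have := hb.2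
      omega
    · right
      have h3 : ((p.1 + b.1, p.2 + b.2) : ℤ × ℤ) ∈ P.filter fun p => p.1 = a.1 := by
        rw [Finset.mem_filter]
        exact ⟨hp, h.symm⟩
      have h4 := hmin _ h3
      simp only at h4
      have := hb.2
      omega
  · intro w hw
    have hb' : LexA (tr (-b.1, -b.2) P) := by
      refine ⟨?_, ?_⟩
      · rw [mem_tr]
        have e : ((0, 0) : ℤ × ℤ) - (-b.1, -b.2) = b := by
          ext <;> simp
        rw [e]
        exact hb.1
      · intro p hp
        rw [mem_tr] at hp
        have e : p - (-b.1, -b.2) = (p.1 + b.1, p.2 + b.2) := by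
          ext <;> simp
        rw [e] at hp
        have h1 := ha _ hp
        simp only at h1
        rcases lt_or_eq_of_le h1 with h | h
        · left
          have := hb.2
          omega
        · right
          have h3 : ((p.1 + b.1, p.2 + b.2) : ℤ × ℤ) ∈ P.filter fun p => p.1 = a.1 := by
            rw [Finset.mem_filter]
            exact ⟨hp, h.symm⟩
          have h4 := hmin _ h3
          simp only at h4
          have := hb.2
          omega
    have k1 := lexa_le hw hb'
    have k2 := lexa_le hb' hw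
    simp only at k1 k2
    ext
    · simp only
      omega
    · simp only
      omega

end Pool.Agent.Q106.PK
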