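import Pool.Agent.Q16.SQ.Stm2

/-!
# Project SQ (helper16), job F2
-/

set_option autoImplicit false

open Pool.Agent.Helper549.Tri

namespace Pool.Agent.Q241.SQ

open Q16.SQ

private theorem clear1 {x : ℝ} (hx : 0 < x) (h : ∃ q : ℚ, (q : ℝ) = x) :
    ∃ n d : ℕ, 0 < n ∧ 0 < d ∧ (n : ℝ) = d * x := by
  obtain ⟨q, rfl⟩ := h
  have hq : 0 < q := by exact_mod_cast hx
  have hn : 0 < q.num := Rat.num_pos.mpr hq
  refine ⟨q.num.toNat, q.den, by omega, q.den_pos, ?_⟩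
  have h1 : ((q.num.toNat : ℕ) : ℤ) = q.num := Int.toNat_of_nonneg hn.le
  have h2 : ((q.num.toNat : ℕ) : ℚ) = (q.num : ℚ) := by exact_mod_cast congrArg (fun z : ℤ => (z : ℚ)) h1
  have h3 : (q.num : ℚ) = q.den * q := by
    rw [mul_comm]
    exact (Rat.mul_den_eq_num q).symm
  have h4 : ((q.num.toNat : ℕ) : ℚ) = q.den * q := h2.trans h3
  exact_mod_cast congrArg (fun z : ℚ => (z : ℝ)) h4

private theorem clear3 {x y z : ℝ} (hx : 0 < x) (hy : 0 < y) (hz : 0 < z) (h1 : ∃ q : ℚ, (q : ℝ) = x)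
    (h2 : ∃ q : ℚ, (q : ℝ) = y) (h3 : ∃ q : ℚ, (q : ℝ) = z) :
    ∃ D a b c : ℕ, 0 < D ∧ 0 < a ∧ 0 < b ∧ 0 < c ∧ (a : ℝ) = D * x ∧ (b : ℝ) = D * y ∧ (c : ℝ) = D * z := by
  obtain ⟨n1, d1, hn1, hd1, e1⟩ := clear1 hx h1
  obtain ⟨n2, d2, hn2, hd2, e2⟩ := clear1 hy h2
  obtain ⟨n3, d3, hn3, hd3, e3⟩ := clear1 hz h3
  refine ⟨d1 * d2 * d3, n1 * d2 * d3, d1 * n2 * d3, d1 * d2 * n3, by positivity, by positivity, by positivity,
    by positivity, ?_, ?_, ?_⟩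
  · push_cast
    rw [e1]
    ring
  · push_cast
    rw [e2]
    ring
  · push_cast
    rw [e3]
    ring

/-- a natural number times a positive square which is a square is a square -/
private theorem isSquare_of_mul {N D K : ℕ} (hD : 0 < D) (h : N * D ^ 2 = K) (hK : IsSquare K) : IsSquare N := by
  obtain ⟨s, hs⟩ := hK
  have h1 : D ^ 2 ∣ s ^ 2 := ⟨N, by rw [sq s, ← hs, ← h, mul_comm]⟩
  have h2 : D ∣ s := (Nat.pow_dvd_pow_iff two_ne_zero).mp h1
  obtain ⟨u, rfl⟩ := h2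
  refine ⟨u, ?_⟩
  have h3 : N * D ^ 2 = u * u * D ^ 2 := by
    rw [h, hs]
    ring
  exact Nat.eq_of_mul_eq_mul_right (by positivity) h3

theorem t_F2 (h : S_SH2) : S_F2 := by
  intro N ℓ θ S A κ β hd hN hκ
  obtain ⟨h1, r, hr, hS0, hS1, hS2, hNr⟩ := h hd hκ
  subst hκ
  obtain ⟨M1, -, -, hM1, -⟩ := hd.char ![-1, -1, -1] (by intro k; fin_cases k <;> simp) (by simp)
    ⟨2, by simp [Fin.sum_univ_three, K2]⟩ (by simp [Fin.prod_univ_three, Fin.sum_univ_three, K2])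
  obtain ⟨M2, -, -, hM2, -⟩ := hd.char ![-1, 1, 1] (by intro k; fin_cases k <;> simp) (by simp)
    ⟨2, by simp [Fin.sum_univ_three, K2]⟩ (by simp [Fin.prod_univ_three, Fin.sum_univ_three, K2])
  simp [Fin.sum_univ_three, Fin.prod_univ_three, K2] at hM1 hM2
  have l0 := hd.lpos 0
  have l1 := hd.lpos 1
  have l2 := hd.lpos 2
  clear hd
  set x : ℝ := r * ℓ 0 with hx
  set y : ℝ := r * ℓ 1 with hy
  set z : ℝ := r * ℓ 2 with hz
  have hx0 : 0 < x := mul_pos hr l0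
  have hy0 : 0 < y := mul_pos hr l1
  have hz0 : 0 < z := mul_pos hr l2
  have e1 : x ^ 2 + y * z = z ^ 2 := by
    rw [hx, hy, hz]
    linear_combination r ^ 2 * h1
  have eN : (N : ℝ) = (y + z) * (y + 2 * z) := by
    rw [hNr, hy, hz]
    ring
  have eS : r * (S 0 + S 1 - S 2) = y * (y + 3 * z) := by
    rw [hS0, hS1, hS2, hy, hz]
    ring
  have em1 : y * (y + 3 * z) = -(M1 : ℝ) * (x + y + z) := by
    rw [← eS, hx, hy, hz]
    linear_combination r * hM1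
  have em2 : y * (y + 3 * z) = (M2 : ℝ) * (-x + y + z) := by
    rw [← eS, hx, hy, hz]
    linear_combination r * hM2
  have hxz : x < z := by nlinarith
  have hm1 : 0 < -(M1 : ℝ) := by
    have h2 : 0 < y * (y + 3 * z) := by positivity
    rw [em1] at h2
    exact (pos_iff_pos_of_mul_pos h2).mpr (by positivity)
  have hm2 : 0 < (M2 : ℝ) := by
    have h2 : 0 < y * (y + 3 * z) := by positivity
    rw [em2] at h2
    exact (pos_iff_pos_of_mul_pos h2).mpr (by linarith)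
  -- `x = k (y + z)`
  set k : ℚ := ((M2 + M1 : ℤ) : ℚ) / ((M2 - M1 : ℤ) : ℚ) with hk
  have hden : (0 : ℝ) < (M2 : ℝ) - M1 := by linarith
  have ek : x = (k : ℝ) * (y + z) := by
    rw [hk]
    push_cast
    rw [div_mul_eq_mul_div, eq_div_iff hden.ne']
    linear_combination em2 - em1
  have hp : 0 < y + z := by linarith
  have hk0 : 0 < (k : ℝ) := by
    by_contra hc
    push Not at hc
    have := mul_nonpos_of_nonpos_of_nonneg hc hp.le
    linarith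
  have hk1 : (k : ℝ) < 1 := by
    by_contra hc
    push Not at hc
    nlinarith
  have ep : (1 - (k : ℝ)) * (y + z) = -(M1 : ℝ) := by
    have h2 : y * (y + 3 * z) = (y + z) ^ 2 * (1 - (k : ℝ) ^ 2) := by
      have h3 : (y + z) ^ 2 * (k : ℝ) ^ 2 = x ^ 2 := by rw [ek]; ring
      linear_combination h3 + e1
    have h4 : ((y + z) * (1 + (k : ℝ))) * ((1 - (k : ℝ)) * (y + z)) = ((y + z) * (1 + (k : ℝ))) * (-(M1 : ℝ)) := by
      have h5 : x + y + z = (y + z) * (1 + (k : ℝ)) := by rw [ek]; ring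
      rw [← h5]
      rw [h5]
      linear_combination -h2 + em1 + (-(M1 : ℝ)) * h5
    exact mul_left_cancel₀ (by positivity) h4
  have rp : ∃ q : ℚ, (q : ℝ) = y + z := by
    refine ⟨-(M1 : ℚ) / (1 - k), ?_⟩
    push_cast
    rw [← ep]
    field_simp [ne_of_gt (sub_pos.mpr hk1)]
  obtain ⟨q, hq⟩ := rp
  have rz : ∃ t : ℚ, (t : ℝ) = z := by
    refine ⟨((N : ℚ) - q ^ 2) / q, ?_⟩
    push_cast
    rw [hq, eN]
    field_simp
    ring
  obtain ⟨t, ht⟩ := rz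
  have ry : ∃ s : ℚ, (s : ℝ) = y := ⟨q - t, by push_cast; rw [hq, ht]; ring⟩
  have rx : ∃ s : ℚ, (s : ℝ) = x := ⟨k * q, by push_cast; rw [hq, ek]⟩
  obtain ⟨D, a, b, c, hD, ha, hb, hc, ea, eb, ec⟩ := clear3 hx0 hy0 hz0 rx ry ⟨t, ht⟩
  have hDr : (0 : ℝ) < D := by exact_mod_cast hD
  refine ⟨0, 1, 2, by decide, by decide, by decide, c * (b + c), b * (b + 2 * c), c ^ 2,
    ⟨a, b, c, ha, hb, hc, Or.inl ⟨?_, Or.inr ⟨rfl, rfl, rfl, ?_⟩⟩⟩, 1 / (r * D ^ 2), by positivity, ?_, ?_, ?_⟩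
  · have h2 : ((a ^ 2 + b * c : ℕ) : ℝ) = ((c ^ 2 : ℕ) : ℝ) := by
      push_cast
      rw [ea, eb, ec]
      linear_combination (D : ℝ) ^ 2 * e1
    exact_mod_cast h2
  · intro hsq
    refine hN (isSquare_of_mul hD ?_ hsq)
    have h2 : ((N * D ^ 2 : ℕ) : ℝ) = (((b + c) * (b + 2 * c) : ℕ) : ℝ) := by
      push_cast
      rw [eN, eb, ec]
      ring
    exact_mod_cast h2
  · rw [hS0]
    push_cast
    rw [eb, ec, hy, hz]
    field_simp
  · rw [hS1]
    push_cast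
    rw [eb, ec, hy, hz]
    field_simp
  · rw [hS2]
    push_cast
    rw [ec, hz]
    field_simp

end Pool.Agent.Q241.SQ
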