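import Pool.Agent.Q16.SQ.Stm5

/-!
# Project SQ (helper16), job PERM0
-/

set_option autoImplicit false

open Pool.Agent.Helper549.Tri

namespace Pool.Agent.Q241.SQP

open Q16.SQ

private theorem perm_area (u v : Fin 3 → ℝ) (h : ∀ j k, u j * v k = u k * v j)
    (i j k : Fin 3) (hij : i ≠ j) (hjk : j ≠ k) (hik : i ≠ k) :
    u i * u j * v k = u 0 * u 1 * v 2 := by
  have h01 : ∀ i : Fin 3, i = 0 ∨ i = 1 ∨ i = 2 := by decide
  rcases h01 i with rfl | rfl | rfl <;> rcases h01 j with rfl | rfl | rfl <;>
    rcases h01 k with rfl | rfl | rfl <;>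
    first
    | exact absurd rfl hij
    | exact absurd rfl hjk
    | exact absurd rfl hik
    | ring1
    | linear_combination u 0 * h 2 1
    | linear_combination u 1 * h 2 0

/-- JOB PERM0 -/
theorem t_PERM0 : S_PERM0 := by
  intro N ℓ θ S A κ β h π σ
  exact
    { lpos := fun k => h.lpos (σ k)
      Spos := fun k => h.Spos (π k)
      tpos := fun k => h.tpos (σ k)
      tsum := by
        have h1 := Equiv.sum_comp σ θ
        rw [Fin.sum_univ_three, Fin.sum_univ_three, h.tsum] at h1
        exact h1
      Apos := fun k => h.Apos (π k)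
      Asum := by
        have h1 := Equiv.sum_comp π A
        rw [Fin.sum_univ_three, Fin.sum_univ_three, h.Asum] at h1
        exact h1
      sinet := fun j k => h.sinet (σ j) (σ k)
      sineT := fun j k => h.sineT (π j) (π k)
      area := by
        have h1 := perm_area ℓ (fun k => Real.sin (θ k)) (fun j k => h.sinet j k)
          (σ 0) (σ 1) (σ 2) (σ.injective.ne (by decide)) (σ.injective.ne (by decide))
          (σ.injective.ne (by decide))
        have h2 := perm_area S (fun k => Real.sin (A k)) (fun j k => h.sineT j k)
          (π 0) (π 1) (π 2) (π.injective.ne (by decide)) (π.injective.ne (by decide))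
          (π.injective.ne (by decide))
        rw [h1, h2]
        exact h.area
      angles := by
        intro j
        rw [h.angles (π j)]
        exact (Equiv.sum_comp σ (fun k => (κ (π j) k : ℝ) * θ k)).symm
      kpos := by
        intro j
        obtain ⟨k, hk⟩ := h.kpos (π j)
        exact ⟨σ.symm k, by rw [Equiv.apply_symm_apply]; exact hk⟩
      side := by
        intro j
        rw [h.side (π j)]
        exact (Equiv.sum_comp σ (fun k => (β (π j) k : ℝ) * ℓ k)).symm
      corner := by
        intro j k hjk
        obtain ⟨x, y, hxy, hx, hy⟩ := h.corner (π j) (π k) (π.injective.ne hjk)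
        refine ⟨σ.symm x, σ.symm y, σ.symm.injective.ne hxy, ?_, ?_⟩
        · rw [Equiv.apply_symm_apply]; exact hx
        · rw [Equiv.apply_symm_apply]; exact hy }

end Pool.Agent.Q241.SQP
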