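import Pool.Agent.Q256.UG.Stm

/-! # Project UG (helper256), job NTH -/

set_option autoImplicit false

namespace Pool.Agent.Q241.UG_NTH

open Finset Pool.Agent.Q256.UG
open Pool.Agent.Q256.UI (tc)

theorem nth : S_NTH := by
  classical
  intro d F
  set P : Polynomial ℝ := ∑ i ∈ range (d + 1),
    Polynomial.C ((F.coeff (Finsupp.single 0 (d - i) + Finsupp.single 1 i) : ℤ) : ℝ) *
      Polynomial.X ^ i with hP
  have h0 : ∀ θ : ℝ, tc F θ d 0 = P.eval θ := by
    intro θ
    unfold tc
    rw [hP, Polynomial.eval_finset_sum]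
    refine sum_congr rfl fun i _ => ?_
    simp
  have h1 : ∀ θ : ℝ, tc F θ d 1 = P.derivative.eval θ := by
    intro θ
    unfold tc
    rw [hP, Polynomial.derivative_sum, Polynomial.eval_finset_sum]
    refine sum_congr rfl fun i _ => ?_
    rw [Polynomial.derivative_C_mul_X_pow, Polynomial.eval_mul, Polynomial.eval_C,
      Polynomial.eval_pow, Polynomial.eval_X, Nat.choose_one_right]
  by_cases hP0 : P = 0
  · have he : {θ : ℝ | Th d F θ} = ∅ := by
      ext θ
      simp only [Set.mem_ofPred_eq, Set.mem_empty_iff_false, iff_false]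
      intro h
      have h2 := h.one
      rw [h1, hP0] at h2
      norm_num at h2
    rw [he]
    simp
  · have hsub : {θ : ℝ | Th d F θ} ⊆ ((P.roots.toFinset : Finset ℝ) : Set ℝ) := by
      intro θ hθ
      rw [Finset.mem_coe, Multiset.mem_toFinset, Polynomial.mem_roots hP0, Polynomial.IsRoot.def,
        ← h0]
      exact hθ.zero
    have hfin := (P.roots.toFinset).finite_toSet
    refine ⟨hfin.subset hsub, ?_⟩
    calc {θ : ℝ | Th d F θ}.ncard ≤ ((P.roots.toFinset : Finset ℝ) : Set ℝ).ncard :=
          Set.ncard_le_ncard hsub hfin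
      _ = P.roots.toFinset.card := Set.ncard_coe_finset _
      _ ≤ P.roots.card := Multiset.toFinset_card_le _
      _ ≤ P.natDegree := P.card_roots'
      _ ≤ d := by
          rw [hP]
          refine Polynomial.natDegree_sum_le_of_forall_le _ _ fun i hi => ?_
          rw [mem_range] at hi
          exact (Polynomial.natDegree_C_mul_X_pow_le _ _).trans (by omega)

end Pool.Agent.Q241.UG_NTH
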