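import Pool.Agent.Q256.UG.Stm

/-! # Project UG (helper256), job RPC -/

set_option autoImplicit false

namespace Pool.Agent.Q241.UG_RPC

open Finset MvPolynomial Pool.Agent.Q256.UG
open Pool.Agent.Q256.UI (tc rho)
open Pool.Agent.Q256.UP (PBox finite_pbox pbox_add pbox_monomial)

/-- the polynomials with a given rational direction -/
def Vs (d H : ℕ) (s : ℕ × ℤ) : Set (MvPolynomial (Fin 2) ℤ) :=
  {F | F ∈ PBox d H ∧ IsCoprime s.2 (s.1 : ℤ) ∧ 1 ≤ s.1 ∧ s.1 ≤ H ∧ ld d F s.1 s.2 = 0 ∧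
    |rho d (tc F ((s.2 : ℝ) / (s.1 : ℝ)))| ≤ 1 / 4}

theorem step (hI : S_INV) (d : ℕ) (hd : 7 ≤ d) (H : ℕ) (s : ℕ × ℤ) :
    Nat.card (Vs d H s) * (H + 1) ≤ Nat.card {F | F ∈ PBox d (2 * H) ∧ ld d F s.1 s.2 = 0} := by
  classical
  have h2 : H + 1 = Nat.card (Fin (H + 1)) := by simp
  rw [h2, ← Nat.card_prod]
  have hfin : Finite {F | F ∈ PBox d (2 * H) ∧ ld d F s.1 s.2 = 0} :=
    ((finite_pbox d (2 * H)).subset fun F hF => hF.1).to_subtype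
  have hmem : ∀ p : Vs d H s × Fin (H + 1),
      p.1.1 + monomial (Finsupp.single 0 (d - 2)) ((p.2 : ℕ) : ℤ) ∈
        {F | F ∈ PBox d (2 * H) ∧ ld d F s.1 s.2 = 0} := by
    intro p
    refine ⟨?_, ?_⟩
    · have h1 := pbox_add p.1.2.1 (pbox_monomial (d := d) (B := H) 0 (d - 2) (by omega)
        ((p.2 : ℕ) : ℤ) (by
          rw [Nat.abs_cast]
          have := p.2.2
          exact_mod_cast (by omega : (p.2 : ℕ) ≤ H)))
      rw [two_mul]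
      exact h1
    · rw [(hI.2 d p.1.1 ((p.2 : ℕ) : ℤ) (by omega)).2.1]
      exact p.1.2.2.2.2.2.1
  refine Nat.card_le_card_of_injective
    (fun p => (⟨_, hmem p⟩ : {F | F ∈ PBox d (2 * H) ∧ ld d F s.1 s.2 = 0})) ?_
  rintro ⟨⟨F, hF⟩, m⟩ ⟨⟨F', hF'⟩, m'⟩ h
  have h1 : F + monomial (Finsupp.single 0 (d - 2)) ((m : ℕ) : ℤ) =
      F' + monomial (Finsupp.single 0 (d - 2)) ((m' : ℕ) : ℤ) := congrArg Subtype.val h
  have e1 := (hI.2 d F ((m : ℕ) : ℤ) (by omega)).2.2 ((s.2 : ℝ) / (s.1 : ℝ))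
  have e2 := (hI.2 d F' ((m' : ℕ) : ℤ) (by omega)).2.2 ((s.2 : ℝ) / (s.1 : ℝ))
  rw [h1, e2] at e1
  have h3 := abs_le.1 hF.2.2.2.2.2
  have h4 := abs_le.1 hF'.2.2.2.2.2
  have h5 : m = m' := by
    by_contra hne
    have h6 : (m : ℕ) ≠ (m' : ℕ) := fun h => hne (Fin.ext h)
    rcases Nat.lt_or_gt_of_ne h6 with h7 | h7
    · have h8 : ((m : ℕ) : ℝ) + 1 ≤ ((m' : ℕ) : ℝ) := by exact_mod_cast h7
      push_cast at e1
      linarith
    · have h8 : ((m' : ℕ) : ℝ) + 1 ≤ ((m : ℕ) : ℝ) := by exact_mod_cast h7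
      push_cast at e1
      linarith
  subst h5
  have h6 : F = F' := add_right_cancel h1
  subst h6
  rfl

theorem one (hR : S_RTC) (hI : S_INV) (d : ℕ) (hd : 7 ≤ d) (H : ℕ) (hH : 1 ≤ H) (s : ℕ × ℤ) :
    (Nat.card (Vs d H s) : ℝ) * (H : ℝ) ^ 2 ≤ 9 ^ NC d * (H : ℝ) ^ NC d := by
  by_cases hs : IsCoprime s.2 (s.1 : ℤ) ∧ 1 ≤ s.1
  · have h1 := step hI d hd H s
    have h2 := hR.1 d (2 * H) s.1 s.2 hs.1 hs.2
    have h3 : 1 ≤ min s.1 (2 * H + 1) ^ d := Nat.one_le_pow _ _ (by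
      rw [Nat.lt_min]
      exact ⟨hs.2, by omega⟩)
    have h4 : 2 * (2 * (2 * H)) + 1 ≤ 9 * H := by omega
    have h5 : Nat.card (Vs d H s) * H ^ 2 ≤ (9 * H) ^ NC d := by
      calc Nat.card (Vs d H s) * H ^ 2 ≤ (Nat.card (Vs d H s) * (H + 1)) * (1 * (2 * H + 1)) := by
            rw [mul_assoc]
            refine Nat.mul_le_mul_left _ ?_
            nlinarith
        _ ≤ Nat.card {F | F ∈ PBox d (2 * H) ∧ ld d F s.1 s.2 = 0} *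
              (min s.1 (2 * H + 1) ^ d * (2 * H + 1)) :=
            Nat.mul_le_mul h1 (Nat.mul_le_mul_right _ h3)
        _ ≤ _ := h2
        _ ≤ _ := Nat.pow_le_pow_left h4 _
    have h6 : ((Nat.card (Vs d H s) * H ^ 2 : ℕ) : ℝ) ≤ (((9 * H) ^ NC d : ℕ) : ℝ) := by
      exact_mod_cast h5
    push_cast at h6
    rwa [mul_pow] at h6
  · have h1 : Vs d H s = ∅ := by
      ext F
      simp only [Set.mem_empty_iff_false, iff_false]
      intro hF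
      exact hs ⟨hF.2.1, hF.2.2.1⟩
    rw [h1]
    simp

theorem rpc : S_RTC → S_INV → S_RPC := by
  classical
  intro hR hI d hd
  refine ⟨5 * 9 ^ NC d, ?_, ?_⟩
  · have : (1 : ℝ) ≤ 9 ^ NC d := one_le_pow₀ (by norm_num)
    linarith
  intro H hH
  have hH1 : (1 : ℝ) ≤ H := by exact_mod_cast hH
  have hHp : (0 : ℝ) < H := by linarith
  set B : ℕ := ⌊(H : ℝ) ^ ((1 : ℝ) / 7)⌋₊ with hB
  set S : Finset (ℕ × ℤ) := Icc 1 B ×ˢ Icc (-(2 * (B : ℤ))) (2 * B) with hS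
  have hsub : {F | F ∈ PBox d H ∧ F ∈ RD d H} ⊆ ⋃ s ∈ S, Vs d H s := by
    rintro F ⟨hF, a, b, hab, hb1, hba, hbd, hl, hr⟩
    obtain ⟨n, rfl⟩ : ∃ n : ℕ, b = n := ⟨b.toNat, by omega⟩
    have hn1 : 1 ≤ n := by exact_mod_cast hb1
    have hnd : n ^ d ≤ H := by exact_mod_cast hbd
    have hn7 : n ^ 7 ≤ H := (Nat.pow_le_pow_right hn1 hd).trans hnd
    have hnH : n ≤ H := (Nat.le_self_pow (by norm_num) n).trans hn7
    have hnB : n ≤ B := by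
      refine Nat.le_floor ?_
      have h1 : ((n : ℝ) ^ (7 : ℕ)) ^ ((1 : ℝ) / 7) ≤ (H : ℝ) ^ ((1 : ℝ) / 7) :=
        Real.rpow_le_rpow (by positivity) (by exact_mod_cast hn7) (by norm_num)
      have h2 : ((n : ℝ) ^ (7 : ℕ)) ^ ((1 : ℝ) / 7) = n := by
        rw [← Real.rpow_natCast, ← Real.rpow_mul (Nat.cast_nonneg n)]
        norm_num
      rwa [h2] at h1
    rw [Set.mem_iUnion₂]
    refine ⟨(n, a), ?_, hF, hab, hn1, hnH, hl, ?_⟩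
    · rw [hS, mem_product, mem_Icc, mem_Icc]
      have h1 := abs_le.1 hba
      exact ⟨⟨hn1, hnB⟩, by dsimp only; omega, by dsimp only; omega⟩
    · simpa using hr
  have hfin : (⋃ s ∈ S, Vs d H s).Finite := by
    refine (finite_pbox d H).subset ?_
    intro F hF
    rw [Set.mem_iUnion₂] at hF
    obtain ⟨s, _, hs⟩ := hF
    exact hs.1
  have h1 : Nat.card {F | F ∈ PBox d H ∧ F ∈ RD d H} ≤ ∑ s ∈ S, Nat.card (Vs d H s) :=
    (Set.ncard_le_ncard hsub hfin).trans (Finset.set_ncard_biUnion_le S (Vs d H))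
  have h2 : (Nat.card {F | F ∈ PBox d H ∧ F ∈ RD d H} : ℝ) * (H : ℝ) ^ 2 ≤
      S.card * (9 ^ NC d * (H : ℝ) ^ NC d) := by
    calc (Nat.card {F | F ∈ PBox d H ∧ F ∈ RD d H} : ℝ) * (H : ℝ) ^ 2
        ≤ (∑ s ∈ S, (Nat.card (Vs d H s) : ℝ)) * (H : ℝ) ^ 2 := by
          refine mul_le_mul_of_nonneg_right ?_ (by positivity)
          exact_mod_cast h1
      _ = ∑ s ∈ S, (Nat.card (Vs d H s) : ℝ) * (H : ℝ) ^ 2 := sum_mul _ _ _
      _ ≤ ∑ _s ∈ S, 9 ^ NC d * (H : ℝ) ^ NC d := sum_le_sum fun s _ => one hR hI d hd H hH s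
      _ = _ := by rw [sum_const, nsmul_eq_mul]
  have hBr : (B : ℝ) ≤ (H : ℝ) ^ ((1 : ℝ) / 7) := Nat.floor_le (by positivity)
  have hB1 : 1 ≤ B := by
    refine Nat.le_floor ?_
    rw [Nat.cast_one]
    exact Real.one_le_rpow hH1 (by norm_num)
  have hScard : S.card = B * (4 * B + 1) := by
    rw [hS, card_product, Nat.card_Icc, Int.card_Icc]
    congr 1
    omega
  have h3 : (S.card : ℝ) ≤ 5 * (H : ℝ) ^ ((2 : ℝ) / 7) := by
    have h4 : (S.card : ℝ) ≤ 5 * (B : ℝ) ^ 2 := by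
      rw [hScard]
      have h5 : B * (4 * B + 1) ≤ 5 * B ^ 2 := by nlinarith
      exact_mod_cast h5
    have h5 : (B : ℝ) ^ 2 ≤ ((H : ℝ) ^ ((1 : ℝ) / 7)) ^ 2 :=
      pow_le_pow_left₀ (Nat.cast_nonneg B) hBr 2
    have h6 : ((H : ℝ) ^ ((1 : ℝ) / 7)) ^ 2 = (H : ℝ) ^ ((2 : ℝ) / 7) := by
      rw [← Real.rpow_natCast, ← Real.rpow_mul hHp.le]
      norm_num
    rw [h6] at h5
    linarith
  have h4 : (H : ℝ) ^ ((NC d : ℝ) - 12 / 7) * (H : ℝ) ^ 2 =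
      (H : ℝ) ^ ((2 : ℝ) / 7) * (H : ℝ) ^ NC d := by
    rw [← Real.rpow_natCast, ← Real.rpow_natCast, ← Real.rpow_add hHp, ← Real.rpow_add hHp]
    congr 1
    push_cast
    ring
  have hH2 : (0 : ℝ) < (H : ℝ) ^ 2 := by positivity
  refine le_of_mul_le_mul_right ?_ hH2
  calc (Nat.card {F | F ∈ PBox d H ∧ F ∈ RD d H} : ℝ) * (H : ℝ) ^ 2
      ≤ S.card * (9 ^ NC d * (H : ℝ) ^ NC d) := h2
    _ ≤ 5 * (H : ℝ) ^ ((2 : ℝ) / 7) * (9 ^ NC d * (H : ℝ) ^ NC d) :=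
        mul_le_mul_of_nonneg_right h3 (by positivity)
    _ = 5 * 9 ^ NC d * ((H : ℝ) ^ ((2 : ℝ) / 7) * (H : ℝ) ^ NC d) := by ring
    _ = 5 * 9 ^ NC d * ((H : ℝ) ^ ((NC d : ℝ) - 12 / 7) * (H : ℝ) ^ 2) := by rw [h4]
    _ = _ := by ring

end Pool.Agent.Q241.UG_RPC
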